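import Pool.Agent.R497.NC.Defs

/-! NC-CHU (helper451) -/

set_option autoImplicit false

namespace Pool.Agent.R497.NC

open MeasureTheory Filter Finset

lemma chu_amgm {a u v : ℝ} (ha : 0 < a) (hu : 0 < u) (hv : 0 < v) :
    3 ≤ u * v / a ^ 2 + a / u + a / v := by
  have h1 := Real.log_le_sub_one_of_pos (show 0 < u * v / a ^ 2 by positivity)
  have h2 := Real.log_le_sub_one_of_pos (show 0 < a / u by positivity)
  have h3 := Real.log_le_sub_one_of_pos (show 0 < a / v by positivity)
  have h4 : Real.log (u * v / a ^ 2) + Real.log (a / u) + Real.log (a / v) = 0 := by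
    rw [Real.log_div (by positivity) (by positivity), Real.log_mul hu.ne' hv.ne', Real.log_pow,
      Real.log_div ha.ne' hu.ne', Real.log_div ha.ne' hv.ne']
    push_cast
    ring
  linarith

lemma chu_key (α : Type) (m m₀ : MeasurableSpace α) (μ : @Measure α m₀) [IsProbabilityMeasure μ]
    (A : Set α) (u : α → ℝ) (hm : m ≤ m₀) (hA : MeasurableSet[m₀] A)
    (hu : ∀ x, 0 ≤ u x ∧ u x ≤ 1) (hE : u =ᵐ[μ] μ[(A.indicator 1 : α → ℝ) | m]) (d : ℝ) (hd : 0 < d) :
    Integrable (fun x => A.indicator (1 : α → ℝ) x * (1 / (u x + d))) μ ∧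
      ∫ x, A.indicator (1 : α → ℝ) x * (1 / (u x + d)) ∂μ ≤ 1 := by
  set E : α → ℝ := μ[(A.indicator 1 : α → ℝ) | m] with hEdef
  set h : α → ℝ := fun x => 1 / (max (E x) 0 + d) with hh
  have hEm : Measurable[m] E := stronglyMeasurable_condExp.measurable
  have hhm : Measurable[m] h := ((hEm.max measurable_const).add_const d).const_div 1
  have hhs : StronglyMeasurable[m] h := hhm.stronglyMeasurable
  have hind : Integrable (A.indicator (1 : α → ℝ)) μ := (integrable_const (1 : ℝ)).indicator hA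
  have hb : ∀ x, ‖h x‖ ≤ 1 / d := by
    intro x
    have h1 : 0 < max (E x) 0 + d := by have := le_max_right (E x) 0; linarith
    rw [Real.norm_eq_abs, abs_of_pos (by simp only [hh]; positivity)]
    exact one_div_le_one_div_of_le hd (by have := le_max_right (E x) 0; linarith)
  have hprod : Integrable (A.indicator (1 : α → ℝ) * h) μ := by
    have := hind.mul_bdd (c := 1 / d) (hhs.mono hm).aestronglyMeasurable (Eventually.of_forall hb)
    exact this
  have hae : (fun x => A.indicator (1 : α → ℝ) x * (1 / (u x + d))) =ᵐ[μ]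
      (A.indicator (1 : α → ℝ) * h) := by
    filter_upwards [hE] with x hx
    rw [Pi.mul_apply]
    simp only [hh]
    rw [← hx, max_eq_left (hu x).1]
  refine ⟨hprod.congr hae.symm, ?_⟩
  rw [integral_congr_ae hae, ← integral_condExp hm,
    integral_congr_ae (condExp_mul_of_stronglyMeasurable_right hhs hprod hind)]
  have h5 : ∫ x, (μ[(A.indicator 1 : α → ℝ) | m] * h) x ∂μ ≤ ∫ _x, (1 : ℝ) ∂μ := by
    apply integral_mono_of_nonneg
    · filter_upwards [hE] with x hx
      rw [Pi.mul_apply]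
      show 0 ≤ E x * h x
      simp only [hh]
      rw [← hx, max_eq_left (hu x).1]
      have := (hu x).1
      positivity
    · exact integrable_const _
    · filter_upwards [hE] with x hx
      rw [Pi.mul_apply]
      show E x * h x ≤ 1
      simp only [hh]
      rw [← hx, max_eq_left (hu x).1, mul_one_div, div_le_one (by have := (hu x).1; linarith)]
      linarith
  refine le_trans h5 ?_
  simp

theorem tCHU : S_CHU := by
  intro α m₁ m₂ m₀ μ _ A u₁ u₂ hm₁ hm₂ hA hu₁ hu₂ hE₁ hE₂
  set a : ℝ := μ.real A with ha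
  have ha0 : 0 ≤ a := measureReal_nonneg
  set I : ℝ := ∫ x, A.indicator (1 : α → ℝ) x * u₁ x * u₂ x ∂μ with hI
  have hindnn : ∀ x, 0 ≤ A.indicator (1 : α → ℝ) x := fun x =>
    Set.indicator_nonneg (fun _ _ => zero_le_one) x
  have hindle : ∀ x, A.indicator (1 : α → ℝ) x ≤ 1 := fun x =>
    Set.indicator_le_self' (fun _ _ => zero_le_one) x
  have hInn : 0 ≤ I := integral_nonneg fun x =>
    mul_nonneg (mul_nonneg (hindnn x) (hu₁ x).1) (hu₂ x).1
  rcases ha0.eq_or_lt with h0 | hapos
  · rw [← h0]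
    simpa using hInn
  have hind : Integrable (A.indicator (1 : α → ℝ)) μ := (integrable_const (1 : ℝ)).indicator hA
  have hindint : ∫ x, A.indicator (1 : α → ℝ) x ∂μ = a := by
    rw [integral_indicator_one hA]
  have hm1 : AEStronglyMeasurable u₁ μ :=
    (stronglyMeasurable_condExp.mono hm₁).aestronglyMeasurable.congr hE₁.symm
  have hm2 : AEStronglyMeasurable u₂ μ :=
    (stronglyMeasurable_condExp.mono hm₂).aestronglyMeasurable.congr hE₂.symm
  have hP : Integrable (fun x => A.indicator (1 : α → ℝ) x * u₁ x * u₂ x) μ := by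
    refine Integrable.of_bound ((hind.aestronglyMeasurable.mul hm1).mul hm2) 1 ?_
    filter_upwards with x
    rw [Real.norm_eq_abs, abs_of_nonneg (mul_nonneg (mul_nonneg (hindnn x) (hu₁ x).1) (hu₂ x).1)]
    have h1 : A.indicator (1 : α → ℝ) x * u₁ x ≤ 1 :=
      mul_le_one₀ (hindle x) (hu₁ x).1 (hu₁ x).2
    exact mul_le_one₀ h1 (hu₂ x).1 (hu₂ x).2
  have hale : a ≤ 1 := measureReal_le_one
  have main : ∀ d : ℝ, 0 < d → d ≤ 1 → a ^ 3 ≤ I + 3 * d := by
    intro d hd hd1
    obtain ⟨hQ1, hJ1⟩ := chu_key α m₁ m₀ μ A u₁ hm₁ hA hu₁ hE₁ d hd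
    obtain ⟨hQ2, hJ2⟩ := chu_key α m₂ m₀ μ A u₂ hm₂ hA hu₂ hE₂ d hd
    have hpt : ∀ x, 3 * A.indicator (1 : α → ℝ) x ≤
        (1 / a ^ 2) * (A.indicator (1 : α → ℝ) x * u₁ x * u₂ x + 3 * d * A.indicator (1 : α → ℝ) x)
        + a * (A.indicator (1 : α → ℝ) x * (1 / (u₁ x + d)))
        + a * (A.indicator (1 : α → ℝ) x * (1 / (u₂ x + d))) := by
      intro x
      have h1 := chu_amgm hapos (show 0 < u₁ x + d by have := (hu₁ x).1; linarith)
        (show 0 < u₂ x + d by have := (hu₂ x).1; linarith)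
      have h2 : (u₁ x + d) * (u₂ x + d) ≤ u₁ x * u₂ x + 3 * d := by
        nlinarith [(hu₁ x).1, (hu₁ x).2, (hu₂ x).1, (hu₂ x).2]
      have h3 : (u₁ x + d) * (u₂ x + d) / a ^ 2 ≤ (u₁ x * u₂ x + 3 * d) / a ^ 2 :=
        div_le_div_of_nonneg_right h2 (by positivity)
      have h4 : 3 ≤ (u₁ x * u₂ x + 3 * d) / a ^ 2 + a / (u₁ x + d) + a / (u₂ x + d) := by linarith
      have h5 := mul_le_mul_of_nonneg_left h4 (hindnn x)
      calc 3 * A.indicator (1 : α → ℝ) x = A.indicator (1 : α → ℝ) x * 3 := by ring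
        _ ≤ _ := h5
        _ = _ := by ring
    have hint := integral_mono (hind.const_mul 3)
      ((((hP.add (hind.const_mul (3 * d))).const_mul (1 / a ^ 2)).add (hQ1.const_mul a)).add
        (hQ2.const_mul a)) hpt
    have e1 : ∫ x, 3 * A.indicator (1 : α → ℝ) x ∂μ = 3 * a := by
      rw [integral_const_mul, hindint]
    have e2 : ∫ x, ((1 / a ^ 2) * (A.indicator (1 : α → ℝ) x * u₁ x * u₂ x
        + 3 * d * A.indicator (1 : α → ℝ) x)
        + a * (A.indicator (1 : α → ℝ) x * (1 / (u₁ x + d)))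
        + a * (A.indicator (1 : α → ℝ) x * (1 / (u₂ x + d)))) ∂μ
        = (1 / a ^ 2) * (I + 3 * d * a)
          + a * ∫ x, A.indicator (1 : α → ℝ) x * (1 / (u₁ x + d)) ∂μ
          + a * ∫ x, A.indicator (1 : α → ℝ) x * (1 / (u₂ x + d)) ∂μ := by
      have j : Integrable (fun x => 3 * d * A.indicator (1 : α → ℝ) x) μ := hind.const_mul (3 * d)
      have i1 : Integrable (fun x => (1 / a ^ 2) * (A.indicator (1 : α → ℝ) x * u₁ x * u₂ x
          + 3 * d * A.indicator (1 : α → ℝ) x)) μ := (hP.add j).const_mul (1 / a ^ 2)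
      have i2 : Integrable (fun x => a * (A.indicator (1 : α → ℝ) x * (1 / (u₁ x + d)))) μ :=
        hQ1.const_mul a
      have i3 : Integrable (fun x => a * (A.indicator (1 : α → ℝ) x * (1 / (u₂ x + d)))) μ :=
        hQ2.const_mul a
      have i12 : Integrable (fun x => (1 / a ^ 2) * (A.indicator (1 : α → ℝ) x * u₁ x * u₂ x
          + 3 * d * A.indicator (1 : α → ℝ) x)
          + a * (A.indicator (1 : α → ℝ) x * (1 / (u₁ x + d)))) μ := i1.add i2
      rw [integral_add i12 i3, integral_add i1 i2, integral_const_mul, integral_const_mul,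
        integral_const_mul, integral_add hP j, integral_const_mul, hindint]
    have h6 : 3 * a ≤ (1 / a ^ 2) * (I + 3 * d * a)
          + a * ∫ x, A.indicator (1 : α → ℝ) x * (1 / (u₁ x + d)) ∂μ
          + a * ∫ x, A.indicator (1 : α → ℝ) x * (1 / (u₂ x + d)) ∂μ := by
      rw [← e1, ← e2]
      exact hint
    have h7 : a ≤ (1 / a ^ 2) * (I + 3 * d * a) := by nlinarith
    have h8 : a * a ^ 2 ≤ I + 3 * d * a := by
      rw [one_div, inv_mul_eq_div, le_div_iff₀ (by positivity)] at h7
      exact h7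
    nlinarith
  apply le_of_forall_pos_le_add
  intro ε hε
  have h9 := main (min 1 (ε / 3)) (lt_min one_pos (by positivity)) (min_le_left _ _)
  have h10 := min_le_right 1 (ε / 3)
  linarith

end Pool.Agent.R497.NC
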